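import Pool.Agent.Helper20.QD.St4

/-!
# Project QD, part B, module FLO: Floyd's lemma
-/

open Filter Topology Matrix Set Metric
open scoped ComplexConjugate ComplexOrder

namespace Pool.Agent.Helper29.QD

open Pool.Agent.Helper35.PM Pool.Agent.Helper20.QD

private theorem tr_eq (M : Mat) : (M * Mᴴ).trace = ((hs M : ℝ) : ℂ) := by
  have h : ∀ z : ℂ, z * star z = ((‖z‖ ^ 2 : ℝ) : ℂ) := by
    intro z
    rw [show star z = conj z from rfl, Complex.mul_conj, Complex.normSq_eq_norm_sq]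
  unfold hs
  rw [Matrix.trace_fin_two, Matrix.mul_apply, Matrix.mul_apply, Fin.sum_univ_two,
    Fin.sum_univ_two]
  simp only [Matrix.conjTranspose_apply, Fin.sum_univ_two, h]
  push_cast
  ring

private theorem dens_smul {t : ℂ} (ht : t ≠ 0) (M : Mat) : density (t • M) = density M := by
  unfold density
  rw [Matrix.trace_smul, smul_smul, smul_eq_mul, mul_inv, mul_comm t⁻¹, mul_assoc,
    inv_mul_cancel₀ ht, mul_one]

private theorem coe_mul' {Γ : Type} [Group Γ] (ρ : Γ →* SL) (g s : Γ) :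
    (ρ (g * s) : Mat) = (ρ g : Mat) * (ρ s : Mat) := by
  rw [map_mul, Matrix.SpecialLinearGroup.coe_mul]

private theorem orb_mul {Γ : Type} [Group Γ] (hLMX : StLMX) (ρ : Γ →* SL) (g s : Γ) :
    orb ρ (g * s) = act (ρ g) (orb ρ s) ∧
      ((ρ g : Mat) * orb ρ s * (ρ g : Mat)ᴴ).trace.re =
        hs (ρ (g * s) : Mat) / hs (ρ s : Mat) := by
  have hs2 : 0 < hs (ρ s : Mat) := by linarith [hLMX.1 (ρ s)]
  have ht : ((ρ s : Mat) * (ρ s : Mat)ᴴ).trace ≠ 0 := by
    rw [tr_eq]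
    exact_mod_cast hs2.ne'
  have h1 : (ρ g : Mat) * orb ρ s * (ρ g : Mat)ᴴ =
      (((ρ s : Mat) * (ρ s : Mat)ᴴ).trace)⁻¹ • ((ρ (g * s) : Mat) * (ρ (g * s) : Mat)ᴴ) := by
    unfold orb density
    rw [coe_mul', Matrix.conjTranspose_mul, Matrix.mul_smul, Matrix.smul_mul]
    simp only [Matrix.mul_assoc]
  constructor
  · unfold act
    rw [h1, dens_smul (inv_ne_zero ht)]
    rfl
  · rw [h1, Matrix.trace_smul, tr_eq, tr_eq, smul_eq_mul, ← Complex.ofReal_inv,
      ← Complex.ofReal_mul, Complex.ofReal_re, inv_mul_eq_div]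

/-- one step of the chain -/
private theorem step {Γ : Type} [Group Γ] (hLMX : StLMX) (ρ : Γ →* SL) (g s : Γ) :
    Real.sqrt (fr (orb ρ g) (orb ρ (g * s))) ≤ 2 * hs (ρ s : Mat) / hs (ρ g : Mat) := by
  obtain ⟨e1, e2⟩ := orb_mul hLMX ρ g s
  obtain ⟨h2, hmul, hinv, hO, -, h3⟩ := hLMX
  have hS : 0 < hs (ρ s : Mat) := by linarith [h2 (ρ s)]
  have hA : 0 < hs (ρ g : Mat) := by linarith [h2 (ρ g)]
  have hAS : 0 < hs (ρ (g * s) : Mat) := by linarith [h2 (ρ (g * s))]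
  obtain ⟨-, h4⟩ := h3 (ρ g) (orb ρ s) (hO (ρ s)).1 (hO (ρ s)).2.1
  rw [e2, ← e1] at h4
  have h5 : hs (ρ g : Mat) ≤ hs (ρ (g * s) : Mat) * hs (ρ s : Mat) := by
    have h6 := hmul (ρ (g * s)) (ρ s)⁻¹
    rw [hinv, ← map_inv, ← map_mul, mul_inv_cancel_right] at h6
    exact h6
  have h7 : 2 / (hs (ρ g : Mat) * (hs (ρ (g * s) : Mat) / hs (ρ s : Mat))) ≤
      (2 * hs (ρ s : Mat) / hs (ρ g : Mat)) ^ 2 := by
    rw [div_le_iff₀ (by positivity)]
    have h8 : (2 * hs (ρ s : Mat) / hs (ρ g : Mat)) ^ 2 *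
        (hs (ρ g : Mat) * (hs (ρ (g * s) : Mat) / hs (ρ s : Mat))) =
        4 * (hs (ρ (g * s) : Mat) * hs (ρ s : Mat)) / hs (ρ g : Mat) := by
      field_simp
      ring
    rw [h8, le_div_iff₀ hA]
    linarith
  rw [Real.sqrt_le_iff]
  exact ⟨by positivity, h4.trans h7⟩

/-- the chain -/
private theorem chain {Γ : Type} [Group Γ] (hLFR : StLFR) (ρ : Γ →* SL) (g : ℕ → Γ) (n : ℕ) :
    Real.sqrt (fr (orb ρ (g 0)) (orb ρ (g n))) ≤
      ∑ i ∈ Finset.range n, Real.sqrt (fr (orb ρ (g i)) (orb ρ (g (i + 1)))) := by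
  induction n with
  | zero =>
    have h : fr (orb ρ (g 0)) (orb ρ (g 0)) = 0 := by
      unfold fr hs
      simp
    rw [h, Real.sqrt_zero, Finset.sum_range_zero]
  | succ n ih =>
    rw [Finset.sum_range_succ]
    exact (hLFR.2.1 _ _ _).trans (add_le_add ih le_rfl)

/-- the sum of a two sided geometric series -/
private theorem geo {κ : ℝ} (hκ : 0 < κ) (i0 : ℝ) (N : ℕ) :
    ∑ i ∈ Finset.range N, Real.exp (-(κ * |(i : ℝ) - i0|)) ≤
      4 * Real.exp κ / (Real.exp κ - 1) := by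
  have hE : 1 < Real.exp κ := Real.one_lt_exp_iff.2 hκ
  have hE1 : 0 < Real.exp κ - 1 := by linarith
  have key : ∀ x : ℝ, Real.exp (-(κ * |x|)) ≤ 4 * Real.exp κ / (Real.exp κ - 1) *
      (1 / (Real.exp (κ * x) + 1) - 1 / (Real.exp (κ * (x + 1)) + 1)) := by
    intro x
    have hu := Real.exp_pos (κ * x)
    have h1 : Real.exp (κ * (x + 1)) = Real.exp (κ * x) * Real.exp κ := by
      rw [← Real.exp_add]
      congr 1
      ring
    rw [h1]
    set u := Real.exp (κ * x) with hudef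
    set E := Real.exp κ with hEdef
    have h2 : 4 * E / (E - 1) * (1 / (u + 1) - 1 / (u * E + 1)) =
        4 * E * u / ((u + 1) * (u * E + 1)) := by
      have h3 : 1 / (u + 1) - 1 / (u * E + 1) = u * (E - 1) / ((u + 1) * (u * E + 1)) := by
        have : 0 < u * E + 1 := by positivity
        field_simp
        ring
      rw [h3]
      have : 0 < u * E + 1 := by positivity
      field_simp
    rw [h2]
    have h4 : 4 * u / (u + 1) ^ 2 ≤ 4 * E * u / ((u + 1) * (u * E + 1)) := by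
      rw [div_le_div_iff₀ (by positivity) (by positivity)]
      have h5 : u * E + 1 ≤ E * (u + 1) := by nlinarith
      have h6 : 0 ≤ 4 * u * (u + 1) := by positivity
      nlinarith [mul_le_mul_of_nonneg_left h5 h6]
    refine le_trans ?_ h4
    rw [le_div_iff₀ (by positivity)]
    rcases le_or_gt 0 x with hx | hx
    · have h7 : Real.exp (-(κ * |x|)) * u = 1 := by
        rw [abs_of_nonneg hx, hudef, ← Real.exp_add]
        simp
      have h8 : 1 ≤ u := Real.one_le_exp (by positivity)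
      have h9 : (u + 1) ^ 2 ≤ 4 * u * u := by nlinarith
      calc Real.exp (-(κ * |x|)) * (u + 1) ^ 2 ≤ Real.exp (-(κ * |x|)) * (4 * u * u) :=
            mul_le_mul_of_nonneg_left h9 (Real.exp_pos _).le
        _ = 4 * u * (Real.exp (-(κ * |x|)) * u) := by ring
        _ = 4 * u := by rw [h7, mul_one]
    · have h7 : Real.exp (-(κ * |x|)) = u := by
        rw [abs_of_neg hx, hudef]
        congr 1
        ring
      have h8 : u ≤ 1 := Real.exp_le_one_iff.2 (by nlinarith)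
      rw [h7]
      have h9 : (u + 1) ^ 2 ≤ 4 := by nlinarith
      have h10 := mul_le_mul_of_nonneg_left h9 hu.le
      linarith
  calc ∑ i ∈ Finset.range N, Real.exp (-(κ * |(i : ℝ) - i0|))
      ≤ ∑ i ∈ Finset.range N, 4 * Real.exp κ / (Real.exp κ - 1) *
        (1 / (Real.exp (κ * ((i : ℝ) - i0)) + 1) -
          1 / (Real.exp (κ * (((i + 1 : ℕ) : ℝ) - i0)) + 1)) := by
        apply Finset.sum_le_sum
        intro i _
        have h := key ((i : ℝ) - i0)
        have h1 : ((i + 1 : ℕ) : ℝ) - i0 = (i : ℝ) - i0 + 1 := by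
          push_cast
          ring
        rw [h1]
        exact h
    _ = 4 * Real.exp κ / (Real.exp κ - 1) *
        (1 / (Real.exp (κ * (((0 : ℕ) : ℝ) - i0)) + 1) -
          1 / (Real.exp (κ * ((N : ℝ) - i0)) + 1)) := by
        rw [← Finset.mul_sum,
          Finset.sum_range_sub' (fun i : ℕ => 1 / (Real.exp (κ * ((i : ℝ) - i0)) + 1)) N]
    _ ≤ 4 * Real.exp κ / (Real.exp κ - 1) * 1 := by
        apply mul_le_mul_of_nonneg_left _ (by positivity)
        have h1 : 1 / (Real.exp (κ * (((0 : ℕ) : ℝ) - i0)) + 1) ≤ 1 := by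
          rw [div_le_one (by positivity)]
          linarith [Real.exp_pos (κ * (((0 : ℕ) : ℝ) - i0))]
        have h2 : 0 ≤ 1 / (Real.exp (κ * ((N : ℝ) - i0)) + 1) := by positivity
        linarith
    _ = _ := mul_one _

theorem hFLO (hLFR : StLFR) (_hLQC : StLQC) (hLMX : StLMX) (hFSB : StFSB) (hFQI : StFQI) :
    StFLO := by
  intro Γ _ ρ1 ρ2 h1 h2 ε hε
  obtain ⟨F, c, C, hF, hc, hC, hch⟩ := hFSB Γ ρ1 h1
  obtain ⟨a, B, ha, hB, hqi⟩ := hFQI Γ ρ2 ρ1 h2
  obtain ⟨M, hM1, hM⟩ : ∃ M : ℝ, 0 < M ∧ ∀ s ∈ F, hs (ρ2 s : Mat) ≤ M := by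
    obtain ⟨M, hM⟩ := (hF.image fun s => hs (ρ2 s : Mat)).bddAbove
    refine ⟨max M 1, by positivity, fun s hs' => ?_⟩
    exact (hM ⟨s, hs', rfl⟩).trans (le_max_left _ _)
  obtain ⟨S, hS⟩ : ∃ S : ℝ, S = 4 * Real.exp (c / a) / (Real.exp (c / a) - 1) := ⟨_, rfl⟩
  have hκ : 0 < c / a := by positivity
  have hS0 : 0 < S := by
    have h3 : 1 < Real.exp (c / a) := Real.one_lt_exp_iff.2 hκ
    rw [hS]
    apply div_pos (by positivity)
    linarith
  obtain ⟨K, hK⟩ : ∃ K : ℝ, K = 2 * M * (B / c) ^ (1 / a) * S := ⟨_, rfl⟩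
  have hK0 : 0 < K := by
    rw [hK]
    have : 0 < (B / c) ^ (1 / a) := Real.rpow_pos_of_pos (by positivity) _
    positivity
  have hsε : 0 < Real.sqrt ε := Real.sqrt_pos.2 hε
  obtain ⟨η, hη⟩ : ∃ η : ℝ, η = (Real.sqrt ε / (2 * K)) ^ a := ⟨_, rfl⟩
  have hη0 : 0 < η := by
    rw [hη]
    exact Real.rpow_pos_of_pos (by positivity) _
  have hηa : K * η ^ (1 / a) = Real.sqrt ε / 2 := by
    rw [hη, ← Real.rpow_mul (by positivity), mul_one_div_cancel ha.ne', Real.rpow_one]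
    field_simp
  refine ⟨min 1 (η ^ 2 / (3 * C)), by positivity, ?_⟩
  intro γ γ' hg hg' hfr
  set δ := min 1 (η ^ 2 / (3 * C)) with hδ
  have hδ1 : δ ≤ 1 := min_le_left _ _
  have hδ2 : 3 * C * δ ≤ η ^ 2 := by
    have : δ ≤ η ^ 2 / (3 * C) := min_le_right _ _
    rw [le_div_iff₀ (by positivity)] at this
    linarith
  obtain ⟨N, g, i0, m, g0, gN, hm, hstep, hmm, hexp, -⟩ := hch γ γ'
  -- `1 / m ≤ η`
  have hmη : 1 / m ≤ η := by
    have e1 : ∀ x : Γ, 1 / hs (ρ1 x : Mat) < δ → 1 / hs (ρ1 x : Mat) ^ 2 ≤ δ := by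
      intro x hx
      have hx0 : 0 < hs (ρ1 x : Mat) := by linarith [hLMX.1 (ρ1 x)]
      have hx1 : 0 < 1 / hs (ρ1 x : Mat) := by positivity
      have : 1 / hs (ρ1 x : Mat) ^ 2 = (1 / hs (ρ1 x : Mat)) * (1 / hs (ρ1 x : Mat)) := by
        field_simp
      rw [this]
      nlinarith
    have e2 := e1 γ hg
    have e3 := e1 γ' hg'
    have e4 : 1 / m ^ 2 ≤ η ^ 2 := by
      refine hmm.trans (le_trans ?_ hδ2)
      have : C * (1 / hs (ρ1 γ : Mat) ^ 2 + 1 / hs (ρ1 γ' : Mat) ^ 2 +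
          fr (orb ρ1 γ) (orb ρ1 γ')) ≤ C * (δ + δ + δ) := by
        apply mul_le_mul_of_nonneg_left _ hC.le
        linarith
      linarith
    have e5 : (1 / m) ^ 2 ≤ η ^ 2 := by
      rw [_root_.one_div_pow]
      exact e4
    exact (pow_le_pow_iff_left₀ (by positivity) hη0.le two_ne_zero).1 e5
  -- the estimate for one step
  have hone : ∀ i ∈ Finset.range N,
      Real.sqrt (fr (orb ρ2 (g i)) (orb ρ2 (g (i + 1)))) ≤
        2 * M * (B / c) ^ (1 / a) * (1 / m) ^ (1 / a) *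
          Real.exp (-(c / a * |(i : ℝ) - i0|)) := by
    intro i hi
    have hiN : i < N := Finset.mem_range.1 hi
    have hs' := hstep i hiN
    have e1 := step hLMX ρ2 (g i) ((g i)⁻¹ * g (i + 1))
    rw [mul_inv_cancel_left] at e1
    have hA : 0 < hs (ρ2 (g i) : Mat) := by linarith [hLMX.1 (ρ2 (g i))]
    have e2 := hexp i hiN.le
    have e3 := e2.trans (hqi (g i))
    -- lower bound for `hs (ρ2 (g i))`
    have hT : (c * m / B * Real.exp (c * |(i : ℝ) - i0|)) ^ (1 / a) ≤ hs (ρ2 (g i) : Mat) := by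
      have e4 : c * m / B * Real.exp (c * |(i : ℝ) - i0|) ≤ hs (ρ2 (g i) : Mat) ^ a := by
        have : c * m / B * Real.exp (c * |(i : ℝ) - i0|) =
            c * m * Real.exp (c * |(i : ℝ) - i0|) / B := by ring
        rw [this, div_le_iff₀ hB]
        linarith
      have e5 := Real.rpow_le_rpow (by positivity) e4 (by positivity : 0 ≤ 1 / a)
      rw [← Real.rpow_mul hA.le, mul_one_div_cancel ha.ne', Real.rpow_one] at e5
      exact e5
    have hT0 : 0 < (c * m / B * Real.exp (c * |(i : ℝ) - i0|)) ^ (1 / a) :=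
      Real.rpow_pos_of_pos (by positivity) _
    have hinv : 1 / hs (ρ2 (g i) : Mat) ≤
        (B / c) ^ (1 / a) * (1 / m) ^ (1 / a) * Real.exp (-(c / a * |(i : ℝ) - i0|)) := by
      have e6 : 1 / hs (ρ2 (g i) : Mat) ≤
          1 / (c * m / B * Real.exp (c * |(i : ℝ) - i0|)) ^ (1 / a) :=
        one_div_le_one_div_of_le hT0 hT
      refine e6.trans (le_of_eq ?_)
      rw [← Real.mul_rpow (by positivity) (by positivity),
        Real.mul_rpow (by positivity) (Real.exp_pos _).le, ← Real.exp_mul,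
        show B / c * (1 / m) = (c * m / B)⁻¹ by field_simp, Real.inv_rpow (by positivity),
        show c * |(i : ℝ) - i0| * (1 / a) = c / a * |(i : ℝ) - i0| by ring, Real.exp_neg,
        one_div, mul_inv]
    calc Real.sqrt (fr (orb ρ2 (g i)) (orb ρ2 (g (i + 1))))
        ≤ 2 * hs (ρ2 ((g i)⁻¹ * g (i + 1)) : Mat) / hs (ρ2 (g i) : Mat) := e1
      _ = 2 * hs (ρ2 ((g i)⁻¹ * g (i + 1)) : Mat) * (1 / hs (ρ2 (g i) : Mat)) := by ring
      _ ≤ 2 * M * (1 / hs (ρ2 (g i) : Mat)) := by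
          apply mul_le_mul_of_nonneg_right _ (by positivity)
          have := hM _ hs'
          linarith
      _ ≤ 2 * M * ((B / c) ^ (1 / a) * (1 / m) ^ (1 / a) *
          Real.exp (-(c / a * |(i : ℝ) - i0|))) :=
          mul_le_mul_of_nonneg_left hinv (by positivity)
      _ = _ := by ring
  have hfin : Real.sqrt (fr (orb ρ2 γ) (orb ρ2 γ')) < Real.sqrt ε := by
    have e1 := chain hLFR ρ2 g N
    rw [g0, gN] at e1
    have e2 := Finset.sum_le_sum hone
    rw [← Finset.mul_sum] at e2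
    have e3 := geo hκ i0 N
    rw [← hS] at e3
    have hBc : 0 < (B / c) ^ (1 / a) := Real.rpow_pos_of_pos (by positivity) _
    have hm1 : 0 < (1 / m) ^ (1 / a) := Real.rpow_pos_of_pos (by positivity) _
    have e4 : 2 * M * (B / c) ^ (1 / a) * (1 / m) ^ (1 / a) *
        ∑ i ∈ Finset.range N, Real.exp (-(c / a * |(i : ℝ) - i0|)) ≤
        2 * M * (B / c) ^ (1 / a) * (1 / m) ^ (1 / a) * S :=
      mul_le_mul_of_nonneg_left e3 (by positivity)
    have e5 : 2 * M * (B / c) ^ (1 / a) * (1 / m) ^ (1 / a) * S = K * (1 / m) ^ (1 / a) := by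
      rw [hK]
      ring
    have e6 : (1 / m) ^ (1 / a) ≤ η ^ (1 / a) :=
      Real.rpow_le_rpow (by positivity) hmη (by positivity)
    have e7 : K * (1 / m) ^ (1 / a) ≤ K * η ^ (1 / a) := mul_le_mul_of_nonneg_left e6 hK0.le
    rw [hηa] at e7
    linarith
  exact (Real.sqrt_lt_sqrt_iff (hLFR.1 _ _).1).1 hfin

end Pool.Agent.Helper29.QD
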