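import Pool.Agent.Helper20.QD.St2

/-!
# Project QD, part B, module RMO: Montel's theorem for sequences
-/

open Filter Topology Matrix Set Metric
open scoped ComplexConjugate

namespace Pool.Agent.Helper29.QD

open Pool.Agent.Helper35.PM Pool.Agent.Helper20.QD

/-- the local Lipschitz bound -/
private theorem rmo_lip {U : Set ℂ} {F : ℕ → ℂ → ℂ} (hU : IsOpen U)
    (hd : ∀ n, DifferentiableOn ℂ (F n) U) (hb : ∀ n, ∀ z ∈ U, ‖F n z‖ ≤ 1) (z : ℂ) (hz : z ∈ U) :
    ∃ r : ℝ, 0 < r ∧ ball z r ⊆ U ∧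
      ∀ n, ∀ y ∈ ball z r, dist (F n y) (F n z) ≤ 2 / r * dist y z := by
  obtain ⟨r, hr, hsub⟩ := Metric.isOpen_iff.1 hU z hz
  refine ⟨r, hr, hsub, fun n y hy => ?_⟩
  apply Complex.dist_le_div_mul_dist_of_mapsTo_ball ((hd n).mono hsub) _ hy
  intro x hx
  rw [Metric.mem_closedBall, dist_eq_norm]
  have h1 := hb n x (hsub hx)
  have h2 := hb n z hz
  linarith [norm_sub_le (F n x) (F n z)]

/-- a subsequence converging at every point of a countable dense subset -/
private theorem rmo_sub {U : Set ℂ} {F : ℕ → ℂ → ℂ} (hb : ∀ n, ∀ z ∈ U, ‖F n z‖ ≤ 1)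
    (q : ℕ → ℂ) : ∃ φ : ℕ → ℕ, StrictMono φ ∧
      ∀ k, q k ∈ U → CauchySeq (fun n => F (φ n) (q k)) := by
  classical
  let a : ℕ → ℕ → ℂ := fun n k => if q k ∈ U then F n (q k) else 0
  have hc : IsCompact (Set.univ.pi fun _ : ℕ => closedBall (0 : ℂ) 1) :=
    isCompact_univ_pi fun _ => isCompact_closedBall _ _
  have ha : ∀ n, a n ∈ Set.univ.pi fun _ : ℕ => closedBall (0 : ℂ) 1 := by
    intro n k _
    show (if q k ∈ U then F n (q k) else 0) ∈ closedBall (0 : ℂ) 1
    split_ifs with h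
    · simpa using hb n _ h
    · simp
  obtain ⟨b, -, φ, hφ, hlim⟩ := hc.tendsto_subseq ha
  refine ⟨φ, hφ, fun k hk => ?_⟩
  have h1 := (tendsto_pi_nhds.1 hlim k).cauchySeq
  have h2 : (fun n => F (φ n) (q k)) = fun n => (a ∘ φ) n k := by
    funext n
    show _ = if q k ∈ U then F (φ n) (q k) else 0
    rw [if_pos hk]
  rw [h2]
  exact h1

theorem hRMO : StRMO := by
  intro U F hU hd hb
  obtain ⟨φ, hφ, hq⟩ := rmo_sub hb (TopologicalSpace.denseSeq ℂ)
  have hlip := rmo_lip hU hd hb
  -- the pointwise limit exists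
  have hex : ∀ z ∈ U, ∃ w, Tendsto (fun n => F (φ n) z) atTop (𝓝 w) := by
    intro z hz
    obtain ⟨r, hr, hsub, hL⟩ := hlip z hz
    apply cauchySeq_tendsto_of_complete
    rw [Metric.cauchySeq_iff]
    intro ε hε
    have hδ : 0 < min r (ε * r / 8) := by positivity
    obtain ⟨k, hk⟩ := (TopologicalSpace.denseRange_denseSeq ℂ).exists_mem_open
      (Metric.isOpen_ball (x := z) (ε := min r (ε * r / 8))) ⟨z, Metric.mem_ball_self hδ⟩
    have hkr : TopologicalSpace.denseSeq ℂ k ∈ ball z r :=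
      Metric.ball_subset_ball (min_le_left _ _) hk
    obtain ⟨N, hN⟩ := Metric.cauchySeq_iff.1 (hq k (hsub hkr)) (ε / 4) (by positivity)
    refine ⟨N, fun m hm n hn => ?_⟩
    have h1 := hN m hm n hn
    have hbd : 2 / r * dist (TopologicalSpace.denseSeq ℂ k) z ≤ ε / 4 := by
      have h2 : dist (TopologicalSpace.denseSeq ℂ k) z ≤ ε * r / 8 :=
        (le_of_lt hk).trans (min_le_right _ _)
      calc 2 / r * dist (TopologicalSpace.denseSeq ℂ k) z ≤ 2 / r * (ε * r / 8) :=
            mul_le_mul_of_nonneg_left h2 (by positivity)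
        _ = ε / 4 := by field_simp; ring
    have h3 := (hL (φ m) _ hkr).trans hbd
    have h4 := (hL (φ n) _ hkr).trans hbd
    calc dist (F (φ m) z) (F (φ n) z)
        ≤ dist (F (φ m) z) (F (φ m) (TopologicalSpace.denseSeq ℂ k)) +
          dist (F (φ m) (TopologicalSpace.denseSeq ℂ k)) (F (φ n) z) := dist_triangle _ _ _
      _ ≤ dist (F (φ m) z) (F (φ m) (TopologicalSpace.denseSeq ℂ k)) +
          (dist (F (φ m) (TopologicalSpace.denseSeq ℂ k))
            (F (φ n) (TopologicalSpace.denseSeq ℂ k)) +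
          dist (F (φ n) (TopologicalSpace.denseSeq ℂ k)) (F (φ n) z)) := by
          gcongr
          exact dist_triangle _ _ _
      _ < ε := by
          rw [dist_comm (F (φ m) z)]
          linarith
  choose! f hf using hex
  have hloc : TendstoLocallyUniformlyOn (fun n => F (φ n)) f atTop U := by
    rw [Metric.tendstoLocallyUniformlyOn_iff]
    intro ε hε z hz
    obtain ⟨r, hr, hsub, hL⟩ := hlip z hz
    have hL0 : ∀ y ∈ ball z r, dist (f y) (f z) ≤ 2 / r * dist y z := fun y hy =>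
      le_of_tendsto ((hf y (hsub hy)).dist (hf z hz)) (Eventually.of_forall fun n =>
        hL (φ n) y hy)
    refine ⟨ball z (min r (ε * r / 8)),
      mem_nhdsWithin_of_mem_nhds (Metric.ball_mem_nhds z (by positivity)), ?_⟩
    have hev : ∀ᶠ n in atTop, dist (F (φ n) z) (f z) < ε / 4 :=
      (hf z hz) (Metric.ball_mem_nhds _ (by positivity))
    filter_upwards [hev] with n hn
    intro y hy
    have hyr : y ∈ ball z r := Metric.ball_subset_ball (min_le_left _ _) hy
    have hbd : 2 / r * dist y z ≤ ε / 4 := by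
      have h2 : dist y z ≤ ε * r / 8 := (le_of_lt hy).trans (min_le_right _ _)
      calc 2 / r * dist y z ≤ 2 / r * (ε * r / 8) :=
            mul_le_mul_of_nonneg_left h2 (by positivity)
        _ = ε / 4 := by field_simp; ring
    have h1 := (hL (φ n) y hyr).trans hbd
    have h2 := (hL0 y hyr).trans hbd
    calc dist (f y) (F (φ n) y) ≤ dist (f y) (f z) + dist (f z) (F (φ n) y) :=
          dist_triangle _ _ _
      _ ≤ dist (f y) (f z) + (dist (f z) (F (φ n) z) + dist (F (φ n) z) (F (φ n) y)) := by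
          gcongr
          exact dist_triangle _ _ _
      _ < ε := by
          rw [dist_comm (f z), dist_comm (F (φ n) z) (F (φ n) y)]
          linarith
  exact ⟨φ, f, hφ, hloc.differentiableOn (Eventually.of_forall fun n => hd (φ n)) hU, hloc⟩

end Pool.Agent.Helper29.QD
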