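import Pool.Agent.Helper58.QD.StG
import Pool.Agent.Helper72.LH.M_CUT

/-!
# Project QD (MP_087a81_gt), module CBA: cut-off functions on geodesic balls
-/

set_option autoImplicit false

namespace Pool.Agent.Helper29.QD

open Helper62.LH Helper62.DSH Helper58.QD MeasureTheory Set Filter Topology
open scoped ContDiff ENNReal

theorem hCba : StMet → StDlc → StHr → StIna → SSmd → SCba := by
  intro hMet _ hHr hIna hSmd n g hg hC
  obtain ⟨ψ, M, hM, hψ, hψ01, hψ1, hψ0, hψd⟩ := Pool.Agent.Helper72.LH.profile_CUT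
  obtain ⟨-, -, hnn, h00, hsym, htri⟩ := hMet n g hg
  refine ⟨2 * M, by positivity, ?_⟩
  intro x s t hs hst
  have hD : 0 < t - s := by linarith
  have hlip : ∀ y z, |dg g x y - dg g x z| ≤ dg g y z := by
    intro y z
    rw [abs_le]
    constructor
    · have h1 := htri x y z
      linarith
    · have h1 := htri x z y
      rw [hsym z y] at h1
      linarith
  obtain ⟨β, hβs, hβ, hβd⟩ := hSmd n g hg (fun y => dg g x y) hlip ((t - s) / 16) (by positivity)
  have hβc : Continuous β := hβs.continuous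
  let χ : E n → ℝ := fun y => ψ ((β y - s) / (t - s))
  have hχs : ContDiff ℝ ∞ χ := hψ.comp ((hβs.sub contDiff_const).div_const (t - s))
  have hχne : ∀ y, χ y ≠ 0 → dg g x y ≤ s + 15 / 16 * (t - s) := by
    intro y hy
    by_contra hcon
    push Not at hcon
    apply hy
    apply hψ0
    rw [le_div_iff₀ hD]
    have h1 := (abs_le.1 (hβ y)).1
    linarith
  have hK : IsCompact {y | dg g x y ≤ s + 15 / 16 * (t - s)} := hHr n g hg hC x _
  have hts : tsupport χ ⊆ {y | dg g x y ≤ s + 15 / 16 * (t - s)} :=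
    closure_minimal (fun y hy => hχne y hy) hK.isClosed
  refine ⟨χ, ⟨hχs, ?_⟩, fun y => hψ01 _, ?_, ?_, ?_⟩
  · exact hK.of_isClosed_subset (isClosed_tsupport χ) hts
  · intro y hy
    apply hψ1
    rw [div_le_iff₀ hD]
    have h1 := (abs_le.1 (hβ y)).2
    linarith
  · intro y hy
    have h1 : dg g x y ≤ s + 15 / 16 * (t - s) := hts hy
    show dg g x y < t
    linarith
  · intro y
    have hkey : ∀ v, |fderiv ℝ χ y v| ≤ 2 * M / (t - s) * nr g y v := by
      intro v
      have h1 : HasFDerivAt β (fderiv ℝ β y) y :=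
        (hβs.differentiable (by simp) y).hasFDerivAt
      have h2 : HasDerivAt ψ (deriv ψ ((β y - s) / (t - s))) ((β y - s) / (t - s)) :=
        (hψ.differentiable (by simp) _).hasDerivAt
      have h3 : HasFDerivAt (fun z => (β z - s) / (t - s)) ((t - s)⁻¹ • fderiv ℝ β y) y := by
        have h4 := (h1.sub_const s).const_mul (t - s)⁻¹
        refine h4.congr_of_eventuallyEq (Eventually.of_forall fun z => ?_)
        show (β z - s) / (t - s) = (t - s)⁻¹ * (β z - s)
        rw [div_eq_inv_mul]
      have h5 : HasFDerivAt χ (deriv ψ ((β y - s) / (t - s)) • ((t - s)⁻¹ • fderiv ℝ β y)) y :=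
        h2.comp_hasFDerivAt y h3
      rw [h5.fderiv]
      have h6 : (deriv ψ ((β y - s) / (t - s)) • ((t - s)⁻¹ • fderiv ℝ β y)) v =
          deriv ψ ((β y - s) / (t - s)) * ((t - s)⁻¹ * fderiv ℝ β y v) := rfl
      rw [h6, abs_mul, abs_mul, abs_of_pos (inv_pos.2 hD)]
      have h7 := hβd y v
      have h8 := hψd ((β y - s) / (t - s))
      have h9 : 0 ≤ nr g y v := Real.sqrt_nonneg _
      calc |deriv ψ ((β y - s) / (t - s))| * ((t - s)⁻¹ * |fderiv ℝ β y v|)
          ≤ M * ((t - s)⁻¹ * (2 * nr g y v)) := by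
            refine mul_le_mul h8 ?_ (by positivity) hM.le
            exact mul_le_mul_of_nonneg_left h7 (by positivity)
        _ = 2 * M / (t - s) * nr g y v := by ring
    obtain ⟨-, -, -, -, -, -, h7, -⟩ := hIna n g hg y
    exact h7 (fderiv ℝ χ y) (2 * M / (t - s)) (by positivity) hkey

end Pool.Agent.Helper29.QD
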