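import Pool.Agent.Helper58.QD.StF
import Pool.Agent.Helper62.LH.Fin

/-!
# Project QD, module Pbn: norm of the pull back and of the contraction of a form
-/

set_option autoImplicit false

open MeasureTheory Set Filter Topology
open Helper62.LH Helper62.DSH Helper58.QD
open scoped ContDiff ENNReal

noncomputable section

namespace Pool.Agent.Helper29.QD

private lemma sum_cons_Pbn {n k : ℕ} (h : (Fin (k + 1) → Fin n) → ℝ) :
    ∑ I : Fin (k + 1) → Fin n, h I =
      ∑ i : Fin n, ∑ J : Fin k → Fin n, h (Fin.cons i J) := by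
  rw [← Fintype.sum_prod_type']
  exact (Fintype.sum_equiv (Fin.consEquiv (fun _ : Fin (k + 1) => Fin n)) _ _ (fun p => rfl)).symm

private lemma tens_Pbn {n : ℕ} (M : Fin n → Fin n → ℝ) (c : ℝ) (hc : 0 ≤ c)
    (hM : ∀ w : Fin n → ℝ, ∑ a, (∑ b, M b a * w b) ^ 2 ≤ c * ∑ b, w b ^ 2) (k : ℕ) :
    ∀ t : (Fin k → Fin n) → ℝ,
      ∑ I : Fin k → Fin n, (∑ J : Fin k → Fin n, (∏ i, M (J i) (I i)) * t J) ^ 2 ≤
        c ^ k * ∑ J : Fin k → Fin n, t J ^ 2 := by
  induction k with
  | zero =>
    intro t
    simp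
  | succ k ih =>
    intro t
    have e1 : ∀ (a : Fin n) (I : Fin k → Fin n),
        ∑ J : Fin (k + 1) → Fin n,
          (∏ i, M (J i) ((Fin.cons a I : Fin (k + 1) → Fin n) i)) * t J =
        ∑ b : Fin n, M b a *
          (∑ J : Fin k → Fin n, (∏ i, M (J i) (I i)) * t (Fin.cons b J)) := by
      intro a I
      rw [sum_cons_Pbn]
      refine Finset.sum_congr rfl fun b _ => ?_
      rw [Finset.mul_sum]
      refine Finset.sum_congr rfl fun J _ => ?_
      rw [Fin.prod_univ_succ]
      simp only [Fin.cons_zero, Fin.cons_succ]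
      ring
    rw [sum_cons_Pbn, sum_cons_Pbn, Finset.sum_comm]
    have e2 : ∀ I : Fin k → Fin n, ∑ a : Fin n, (∑ J : Fin (k + 1) → Fin n,
          (∏ i, M (J i) ((Fin.cons a I : Fin (k + 1) → Fin n) i)) * t J) ^ 2 ≤
        c * ∑ b : Fin n,
          (∑ J : Fin k → Fin n, (∏ i, M (J i) (I i)) * t (Fin.cons b J)) ^ 2 := by
      intro I
      rw [Finset.sum_congr rfl fun a _ => by rw [e1 a I]]
      exact hM (fun b => ∑ J : Fin k → Fin n, (∏ i, M (J i) (I i)) * t (Fin.cons b J))
    refine le_trans (Finset.sum_le_sum fun I _ => e2 I) ?_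
    rw [← Finset.mul_sum, Finset.sum_comm, pow_succ, mul_comm (c ^ k) c, mul_assoc]
    refine mul_le_mul_of_nonneg_left ?_ hc
    rw [Finset.mul_sum]
    exact Finset.sum_le_sum fun b _ => ih (fun J => t (Fin.cons b J))

private lemma nrm_Pbn {n : ℕ} {g : E n → Bl n} {x : E n} {f : Fin n → E n} (hf : Onb g x f)
    (v : E n) : g x v v = ∑ i, g x v (f i) ^ 2 := by
  conv_lhs => rw [← hf.expd v]
  rw [map_sum]
  have h1 : ∀ i, g x (∑ j, g x v (f j) • f j) (g x v (f i) • f i) =
      g x v (f i) ^ 2 := by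
    intro i
    rw [hf.expd v, map_smul, smul_eq_mul]
    ring
  exact Finset.sum_congr rfl fun i _ => h1 i

private lemma multi_Pbn {n k : ℕ} (α : Fk n k) (e : Fin n → E n) (c : Fin k → Fin n → ℝ) :
    α (fun i => ∑ b, c i b • e b) =
      ∑ J : Fin k → Fin n, (∏ i, c i (J i)) * α (fun i => e (J i)) := by
  have h2 : α (fun i => ∑ b, c i b • e b) =
      α.toMultilinearMap (fun i => ∑ b, c i b • e b) := rfl
  rw [h2, MultilinearMap.map_sum]
  refine Finset.sum_congr rfl fun J _ => ?_
  rw [MultilinearMap.map_smul_univ]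
  rfl

theorem hPbn (hOnb : StOnb) (hCfr : StCfr) : SPbn := by
  intro n k g hg x y
  obtain ⟨f, hf⟩ := hOnb n g hg x
  obtain ⟨e, he⟩ := hOnb n g hg y
  refine ⟨?_, ?_⟩
  · intro L a ha hL α
    obtain ⟨M, hMdef⟩ : ∃ M : Fin n → Fin n → ℝ, ∀ b c, M b c = g y (L (f c)) (e b) :=
      ⟨fun b c => g y (L (f c)) (e b), fun _ _ => rfl⟩
    -- forward inequality
    have h1 : ∀ w : Fin n → ℝ, ∑ b, (∑ c, M b c * w c) ^ 2 ≤ a ^ 2 * ∑ c, w c ^ 2 := by
      intro w
      have hv := hL (∑ c, w c • f c)
      have e1 : g y (L (∑ c, w c • f c)) (L (∑ c, w c • f c)) =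
          ∑ b, (∑ c, M b c * w c) ^ 2 := by
        rw [nrm_Pbn he]
        refine Finset.sum_congr rfl fun b _ => ?_
        congr 1
        rw [map_sum, map_sum, ContinuousLinearMap.sum_apply]
        refine Finset.sum_congr rfl fun c _ => ?_
        rw [map_smul, map_smul, ContinuousLinearMap.smul_apply, smul_eq_mul, hMdef]
        ring
      have e2 : g x (∑ c, w c • f c) (∑ c, w c • f c) = ∑ c, w c ^ 2 := by
        rw [nrm_Pbn hf]
        refine Finset.sum_congr rfl fun b _ => ?_
        congr 1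
        rw [map_sum, ContinuousLinearMap.sum_apply]
        rw [Finset.sum_eq_single b]
        · rw [map_smul, ContinuousLinearMap.smul_apply, smul_eq_mul, hf.orth]
          simp
        · intro c _ hcb
          rw [map_smul, ContinuousLinearMap.smul_apply, smul_eq_mul, hf.orth]
          simp [hcb]
        · intro hb
          exact absurd (Finset.mem_univ b) hb
      rw [e1, e2] at hv
      exact hv
    -- transposed inequality
    have h2 : ∀ w : Fin n → ℝ, ∑ c, (∑ b, M b c * w b) ^ 2 ≤ a ^ 2 * ∑ b, w b ^ 2 := by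
      intro w
      obtain ⟨z, hz⟩ : ∃ z : Fin n → ℝ, ∀ c, z c = ∑ b, M b c * w b :=
        ⟨fun c => ∑ b, M b c * w b, fun _ => rfl⟩
      obtain ⟨Z, hZ⟩ : ∃ Z : ℝ, Z = ∑ c, z c ^ 2 := ⟨_, rfl⟩
      obtain ⟨W, hW⟩ : ∃ W : ℝ, W = ∑ b, w b ^ 2 := ⟨_, rfl⟩
      have hZ0 : 0 ≤ Z := by rw [hZ]; positivity
      have hW0 : 0 ≤ W := by rw [hW]; positivity
      have hz1 : Z = ∑ b, w b * (∑ c, M b c * z c) := by
        rw [hZ]
        have : ∀ c, z c ^ 2 = ∑ b, M b c * w b * z c := by
          intro c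
          rw [← Finset.sum_mul, ← hz c]
          ring
        rw [Finset.sum_congr rfl fun c _ => this c, Finset.sum_comm]
        refine Finset.sum_congr rfl fun b _ => ?_
        rw [Finset.mul_sum]
        exact Finset.sum_congr rfl fun c _ => by ring
      have hcs : Z ^ 2 ≤ W * (a ^ 2 * Z) := by
        rw [hz1]
        refine le_trans (Finset.sum_mul_sq_le_sq_mul_sq _ _ _) ?_
        rw [← hz1, ← hW]
        refine mul_le_mul_of_nonneg_left ?_ hW0
        have := h1 z
        rw [← hZ] at this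
        exact this
      have hfin : Z ≤ a ^ 2 * W := by
        rcases hZ0.eq_or_lt with h0 | h0
        · rw [← h0]
          positivity
        · have : Z * Z ≤ (a ^ 2 * W) * Z := by nlinarith
          exact le_of_mul_le_mul_right this h0
      rw [Finset.sum_congr rfl fun c _ => by rw [← hz c], ← hZ, ← hW]
      exact hfin
    have h3 := tens_Pbn M (a ^ 2) (by positivity) h2 k (fun J => α (fun i => e (J i)))
    unfold nn
    rw [nsq_frame hCfr hf, nsq_frame hCfr he]
    have e3 : ∀ I : Fin k → Fin n, (pb L α) (fun i => f (I i)) =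
        ∑ J : Fin k → Fin n, (∏ i, M (J i) (I i)) * α (fun i => e (J i)) := by
      intro I
      have e4 : (pb L α) (fun i => f (I i)) = α (fun i => ∑ b, M b (I i) • e b) := by
        show α (fun i => L (f (I i))) = _
        congr 1
        funext i
        refine (he.expd (L (f (I i)))).symm.trans ?_
        refine Finset.sum_congr rfl fun b _ => ?_
        rw [hMdef]
      rw [e4]
      exact multi_Pbn α e (fun i b => M b (I i))
    rw [Finset.sum_congr rfl fun I _ => by rw [e3 I]]
    have e5 : a ^ k * √((∑ J : Fin k → Fin n, α (fun i => e (J i)) ^ 2) / k.factorial) =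
        √((a ^ 2) ^ k * ((∑ J : Fin k → Fin n, α (fun i => e (J i)) ^ 2) / k.factorial)) := by
      rw [Real.sqrt_mul (by positivity), ← pow_mul, mul_comm 2 k, pow_mul,
        Real.sqrt_sq (by positivity)]
    rw [e5]
    refine Real.sqrt_le_sqrt ?_
    rw [mul_div_assoc']
    exact div_le_div_of_nonneg_right h3 (by positivity)
  · intro α v
    unfold nn
    rw [nsq_frame hCfr he, nsq_frame hCfr he]
    have e1 : ∀ K : Fin k → Fin n, (α.curryLeft v) (fun i => e (K i)) ^ 2 ≤
        g y v v * ∑ b : Fin n, α (fun i => e ((Fin.cons b K : Fin (k + 1) → Fin n) i)) ^ 2 := by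
      intro K
      have e2 : (α.curryLeft v) (fun i => e (K i)) =
          ∑ b, g y v (e b) * α (fun i => e ((Fin.cons b K : Fin (k + 1) → Fin n) i)) := by
        rw [ContinuousAlternatingMap.curryLeft_apply_apply]
        have e3 : ∀ u : E n, α (Matrix.vecCons u (fun i => e (K i))) =
            (α.toMultilinearMap.toLinearMap (Fin.cons 0 (fun i => e (K i))) 0) u := by
          intro u
          show α _ = α (Function.update (Fin.cons 0 (fun i => e (K i))) 0 u)
          congr 1
          rw [Fin.update_cons_zero]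
          rfl
        rw [e3]
        conv_lhs => rw [← he.expd v]
        rw [map_sum]
        refine Finset.sum_congr rfl fun b _ => ?_
        rw [map_smul, smul_eq_mul, ← e3]
        congr 2
        funext i
        refine Fin.cases ?_ (fun j => ?_) i
        · rfl
        · rfl
      rw [e2, nrm_Pbn he v]
      exact Finset.sum_mul_sq_le_sq_mul_sq _ _ _
    have hgv : 0 ≤ g y v v := by
      rw [nrm_Pbn he v]
      positivity
    have e4 : ∑ K : Fin k → Fin n, (α.curryLeft v) (fun i => e (K i)) ^ 2 ≤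
        g y v v * ∑ J : Fin (k + 1) → Fin n, α (fun i => e (J i)) ^ 2 := by
      refine le_trans (Finset.sum_le_sum fun K _ => e1 K) ?_
      rw [← Finset.mul_sum, sum_cons_Pbn, Finset.sum_comm]
    obtain ⟨S, hS⟩ : ∃ S : ℝ, S = ∑ J : Fin (k + 1) → Fin n, α (fun i => e (J i)) ^ 2 :=
      ⟨_, rfl⟩
    have hS0 : 0 ≤ S := by rw [hS]; positivity
    rw [← hS] at e4 ⊢
    have hk : (0 : ℝ) < k.factorial := by exact_mod_cast k.factorial_pos
    have hk1 : ((k + 1).factorial : ℝ) = (k + 1) * k.factorial := by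
      rw [Nat.factorial_succ]
      push_cast
      ring
    have e5 : (∑ K : Fin k → Fin n, (α.curryLeft v) (fun i => e (K i)) ^ 2) / k.factorial ≤
        ((k : ℝ) + 1) ^ 2 * (g y v v * (S / (k + 1).factorial)) := by
      rw [hk1]
      have hk2 : (1 : ℝ) ≤ (k : ℝ) + 1 := by
        have : (0 : ℝ) ≤ k := Nat.cast_nonneg k
        linarith
      calc (∑ K : Fin k → Fin n, (α.curryLeft v) (fun i => e (K i)) ^ 2) / k.factorial
          ≤ (g y v v * S) / k.factorial := div_le_div_of_nonneg_right e4 hk.le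
        _ = ((k : ℝ) + 1) * (g y v v * (S / ((k + 1) * k.factorial))) := by
            field_simp
        _ ≤ ((k : ℝ) + 1) ^ 2 * (g y v v * (S / ((k + 1) * k.factorial))) := by
            refine mul_le_mul_of_nonneg_right ?_ (by positivity)
            nlinarith
    refine le_trans (Real.sqrt_le_sqrt e5) ?_
    rw [Real.sqrt_mul (by positivity), Real.sqrt_sq (by positivity), Real.sqrt_mul hgv, mul_assoc]

end Pool.Agent.Helper29.QD
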